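import Pool.Agent.Helper90_Q2N.Stmts

/-! # The iteration (type (-,-) of the disproof of Q2) -/

set_option autoImplicit false

open Module

namespace Pool.Agent.Q2N.H53

open Pool.Agent.Q2N.H90

section Pow

variable {F A : Type} [Field F] [Ring A] [Algebra F A]

lemma one_mem_pow {V : Submodule F A} (h1 : (1 : A) ∈ V) (k : ℕ) : (1 : A) ∈ V ^ k := by
  induction k with
  | zero => rw [pow_zero]; exact Submodule.one_le.mp le_rfl
  | succ k ih =>
    rw [pow_succ]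
    have := Submodule.mul_mem_mul ih h1
    rwa [one_mul] at this

lemma pow_le_pow {V : Submodule F A} (h1 : (1 : A) ∈ V) {k m : ℕ} (h : k ≤ m) :
    V ^ k ≤ V ^ m := by
  obtain ⟨d, rfl⟩ := Nat.exists_eq_add_of_le h
  intro x hx
  rw [pow_add]
  have := Submodule.mul_mem_mul hx (one_mem_pow h1 d)
  rwa [mul_one] at this

lemma fd_pow {V : Submodule F A} (h : FiniteDimensional F V) (k : ℕ) :
    FiniteDimensional F (V ^ k : Submodule F A) := by
  have hfg : V.FG := Module.Finite.iff_fg.mp h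
  exact Module.Finite.iff_fg.mpr (hfg.pow k)

end Pow

variable {F K X A : Type} [Field F] [Field K] [Algebra F K] [Ring A] [Algebra F A]
variable {Q : Poles F K X}

lemma nat_res (e r i : ℕ) (h : r < e) : ((e - r) * i + r * (i + 1)) % e = r := by
  have h1 : (e - r) * i + r * (i + 1) = r + e * i := by
    obtain ⟨d, rfl⟩ := Nat.exists_eq_add_of_lt h
    have : r + d + 1 - r = d + 1 := by omega
    rw [this]
    ring
  rw [h1, Nat.add_mul_mod_self_left, Nat.mod_eq_of_lt h]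

lemma nat_res' (e r i : ℕ) (h : r < e) : (r * (i + 1) + (e - r) * i) % e = r := by
  rw [Nat.add_comm]
  exact nat_res e r i h

/-- The first sea. -/
lemma sea1 (E E' : End1 Q A) (a b : A) (i j M : ℕ) (hi : 1 ≤ i) (hj : 1 ≤ j)
    (V0 : Submodule F A) (hfd : FiniteDimensional F V0) (h1 : (1 : A) ∈ V0) (haV : a ∈ V0)
    (hbV : b ∈ V0) (ha : E.Lev a i) (hb : E.Lev b (i + 1)) (hb' : E'.Lev b j)
    (hM : i * (i + 1) ≤ M) :
    Sea E E' (V0 ^ M) (b ^ i) (i * (i + 1)) (i * j) := by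
  have hM' : i ≤ M := by nlinarith
  refine ⟨fd_pow hfd M, one_mem_pow h1 M, ?_, Nat.mul_pos hi (by omega), Nat.mul_pos hi hj,
    End1.Lev.pow E hb i, E'.pow_mem_Fil hb'.1 i, ?_⟩
  · exact pow_le_pow h1 hM' (Submodule.pow_mem_pow V0 hbV i)
  · intro r hr
    refine ⟨a ^ (i * (i + 1) - r) * b ^ r, ?_, (i * (i + 1) - r) * i + r * (i + 1), ?_, ?_⟩
    · apply pow_le_pow h1 hM
      have h2 : i * (i + 1) = (i * (i + 1) - r) + r := by omega
      have h3 := Submodule.mul_mem_mul (Submodule.pow_mem_pow V0 haV (i * (i + 1) - r))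
        (Submodule.pow_mem_pow V0 hbV r)
      rw [← pow_add, ← h2] at h3
      exact h3
    · exact End1.Lev.mul E (End1.Lev.pow E ha _) (End1.Lev.pow E hb _)
    · exact nat_res _ _ _ hr

/-- The second sea. -/
lemma sea2 (E E' : End1 Q A) (a b : A) (i j M : ℕ) (hi : 1 ≤ i)
    (V0 : Submodule F A) (hfd : FiniteDimensional F V0) (h1 : (1 : A) ∈ V0) (haV : a ∈ V0)
    (hbV : b ∈ V0) (ha : E.Lev a i) (ha' : E'.Lev a (j + 1)) (hb' : E'.Lev b j)
    (hM : (i + 1) * (j + 1) ≤ M) :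
    Sea E' E (V0 ^ M) (a ^ (i + 1)) ((i + 1) * (j + 1)) ((i + 1) * i) := by
  have hM' : i + 1 ≤ M := by nlinarith
  refine ⟨fd_pow hfd M, one_mem_pow h1 M, ?_, Nat.mul_pos (by omega) (by omega),
    Nat.mul_pos (by omega) hi, End1.Lev.pow E' ha' (i + 1), E.pow_mem_Fil ha.1 (i + 1), ?_⟩
  · exact pow_le_pow h1 hM' (Submodule.pow_mem_pow V0 haV (i + 1))
  · intro r hr
    refine ⟨a ^ r * b ^ ((i + 1) * (j + 1) - r), ?_,
      r * (j + 1) + ((i + 1) * (j + 1) - r) * j, ?_, ?_⟩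
    · apply pow_le_pow h1 hM
      have h2 : (i + 1) * (j + 1) = r + ((i + 1) * (j + 1) - r) := by omega
      have h3 := Submodule.mul_mem_mul (Submodule.pow_mem_pow V0 haV r)
        (Submodule.pow_mem_pow V0 hbV ((i + 1) * (j + 1) - r))
      rw [← pow_add, ← h2] at h3
      exact h3
    · exact End1.Lev.mul E' (End1.Lev.pow E' ha' _) (End1.Lev.pow E' hb' _)
    · exact nat_res' _ _ _ hr

/-- The start. -/
lemma start (E E' : End1 Q A) (V : Submodule F A) (p : A) (e q : ℕ) (hs : Sea E E' V p e q)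
    (hl : LocC E E' V p e q) (n : ℕ) (x y : A) (hxV : x ∈ V) (hyV : y ∈ V) (hx : x ∈ E.Fil n)
    (hy : y ∈ E.Fil n) (hli : LinearIndependent F ![E.c n x, E.c n y]) :
    ∃ ρ : ℝ, 0 < ρ ∧ ∀ η T : ℝ, 0 < η → η < 1 → ∃ z n : ℕ, 1 ≤ z ∧ 1 ≤ n ∧ T ≤ ρ * z ∧
      1 + ρ * (n + η / 4 * z) ≤ (finrank F (E.L n (V ^ z)) : ℝ) := by
  have hfd := hs.fd
  have hn : 1 ≤ n := by
    by_contra hn0
    have hn0' : n = 0 := by omega
    subst hn0'
    obtain ⟨c1, rfl⟩ := E.lev0 x hx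
    obtain ⟨c2, rfl⟩ := E.lev0 y hy
    rw [Algebra.algebraMap_eq_smul_one, Algebra.algebraMap_eq_smul_one, map_smul, map_smul,
      E.c_one] at hli
    have h2 := LinearIndependent.pair_iff.mp hli c2 (-c1) (by
      rw [smul_smul, smul_smul, ← add_smul]
      have : c2 * c1 + -c1 * c2 = 0 := by ring
      rw [this, zero_smul])
    have h3 := LinearIndependent.pair_iff.mp hli 1 0 (by
      have : c1 = 0 := neg_eq_zero.mp h2.2
      rw [this]
      simp)
    exact one_ne_zero h3.1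
  have h2 : 2 ≤ finrank F (E.L n (V ^ 1)) := by
    rw [pow_one]
    have hsp : Submodule.span F (Set.range ![E.c n x, E.c n y]) ≤ E.L n V := by
      rw [Submodule.span_le]
      rintro _ ⟨k, rfl⟩
      fin_cases k
      · exact E.mem_L.mpr ⟨x, ⟨hxV, hx⟩, rfl⟩
      · exact E.mem_L.mpr ⟨y, ⟨hyV, hy⟩, rfl⟩
    have h3 := finrank_span_eq_card hli
    have h4 := Submodule.finrank_mono hsp
    rw [h3] at h4
    simpa using h4
  obtain ⟨P, R, C, J, -, -, hL⟩ := hl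
  have he := hs.e1
  obtain ⟨w, hw⟩ : ∃ w : ℕ, e * n + 2 * C * 1 + J < e * w :=
    ⟨e * n + 2 * C * 1 + J + 1,
      lt_of_lt_of_le (Nat.lt_succ_self _) (Nat.le_mul_of_pos_left _ he)⟩
  have hw0 : 0 < w := by
    rcases Nat.eq_zero_or_pos w with h | h
    · subst h
      omega
    · exact h
  have hL' := fun s => hL e 1 n w s he dvd_rfl le_rfl hn h2 hw 0 he
  have hw0' : (0 : ℝ) < w := by exact_mod_cast hw0
  have he0 : (0 : ℝ) ≤ e := Nat.cast_nonneg e
  refine ⟨1 / ((w : ℝ) * (e + 2)), by positivity, ?_⟩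
  intro η T hη hη1
  set D : ℕ := e * n + P + e + e * P + 1 with hD
  obtain ⟨s, hs1⟩ : ∃ s : ℕ, |T| * ((w : ℝ) * (e + 2)) + D + 1 ≤ s := exists_nat_ge _
  have hTn : 0 ≤ |T| * ((w : ℝ) * (e + 2)) := by positivity
  have hD0 : (0 : ℝ) ≤ D := Nat.cast_nonneg D
  obtain ⟨l, hlP, -, hf⟩ := hL' s
  have hf' := hf (q * s + (e * R + R + q * e * P) * 1) (s + (e + e * P + 1) * 1) le_rfl le_rfl
  have hfdZ := fd_pow hfd (s + (e + e * P + 1) * 1)
  have hmono : finrank F (E.L (e * s + e * n + l)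
      (V ^ (s + (e + e * P + 1) * 1) ⊓ E'.Fil (q * s + (e * R + R + q * e * P) * 1))) ≤
      finrank F (E.L (e * s + e * n + l) (V ^ (s + (e + e * P + 1) * 1))) :=
    Submodule.finrank_mono (E.L_mono inf_le_left)
  have h5 : 1 ≤ e * (finrank F (E.L n (V ^ 1)) - 1) := Nat.mul_pos he (by omega)
  have h6 : 1 + (s / w + 1) ≤
      finrank F (E.L (e * s + e * n + l) (V ^ (s + (e + e * P + 1) * 1))) := by
    refine le_trans ?_ (hf'.trans hmono)
    have := Nat.mul_le_mul_left (s / w + 1) h5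
    omega
  have h7 : (1 : ℝ) + ((s / w + 1 : ℕ) : ℝ) ≤
      (finrank F (E.L (e * s + e * n + l) (V ^ (s + (e + e * P + 1) * 1))) : ℝ) := by
    exact_mod_cast h6
  have h8 : (s : ℝ) ≤ w * ((s / w + 1 : ℕ) : ℝ) := by
    have := Nat.lt_mul_div_succ s hw0
    exact_mod_cast this.le
  have h9 : (s : ℝ) / w ≤ ((s / w + 1 : ℕ) : ℝ) := by
    rw [div_le_iff₀ hw0']
    linarith
  refine ⟨s + (e + e * P + 1) * 1, e * s + e * n + l, by omega, by nlinarith, ?_, ?_⟩
  · have h10 : (s : ℝ) ≤ ((s + (e + e * P + 1) * 1 : ℕ) : ℝ) := by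
      exact_mod_cast Nat.le_add_right _ _
    have h11 : T * ((w : ℝ) * (e + 2)) ≤ ((s + (e + e * P + 1) * 1 : ℕ) : ℝ) := by
      have : T * ((w : ℝ) * (e + 2)) ≤ |T| * ((w : ℝ) * (e + 2)) :=
        mul_le_mul_of_nonneg_right (le_abs_self T) (by positivity)
      linarith
    rw [div_mul_eq_mul_div, one_mul, le_div_iff₀ (by positivity)]
    exact h11
  · refine le_trans ?_ h7
    refine add_le_add le_rfl (le_trans ?_ h9)
    rw [div_mul_eq_mul_div, one_mul, div_le_div_iff₀ (by positivity) hw0']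
    have h12 : ((e * s + e * n + l : ℕ) : ℝ) + η / 4 * ((s + (e + e * P + 1) * 1 : ℕ) : ℝ) ≤
        ((e : ℝ) + 2) * s := by
      have hz : (0 : ℝ) ≤ ((s + (e + e * P + 1) * 1 : ℕ) : ℝ) := Nat.cast_nonneg _
      have h13 : η / 4 * ((s + (e + e * P + 1) * 1 : ℕ) : ℝ) ≤
          ((s + (e + e * P + 1) * 1 : ℕ) : ℝ) := by
        nlinarith
      have h14 : e * s + e * n + l + (s + (e + e * P + 1) * 1) ≤ (e + 1) * s + D := by
        rw [hD]
        nlinarith
      have h15 : ((e * s + e * n + l : ℕ) : ℝ) + ((s + (e + e * P + 1) * 1 : ℕ) : ℝ) ≤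
          ((e : ℝ) + 1) * s + D := by
        exact_mod_cast h14
      linarith
    calc (((e * s + e * n + l : ℕ) : ℝ) + η / 4 * ((s + (e + e * P + 1) * 1 : ℕ) : ℝ)) * w
        ≤ (((e : ℝ) + 2) * s) * w := mul_le_mul_of_nonneg_right h12 hw0'.le
      _ = s * ((w : ℝ) * (e + 2)) := by ring

/-- The iteration, abstractly. -/
lemma rounds (E E' : End1 Q A) (V : Submodule F A) (e q e' q' : ℕ) (he : 1 ≤ e) (hq : 1 ≤ q)
    (r1 : RoundC E E' V e q) (r2 : RoundC E' E V e' q')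
    (η : ℝ) (hη : 0 < η) (hη1 : η < 1) (ρ : ℝ) (hρ : 0 < ρ)
    (hst : ∀ T : ℝ, ∃ z n : ℕ, 1 ≤ z ∧ 1 ≤ n ∧ T ≤ ρ * z ∧
      1 + ρ * (n + η / 4 * z) ≤ (finrank F (E.L n (V ^ z)) : ℝ))
    (G : ℝ) (hG : G = ((1 - η) * ((e' : ℝ) / q') ^ 2) * ((1 - η) * ((e : ℝ) / q) ^ 2))
    (hG1 : 1 < G) :
    ∃ k K z : ℕ, 1 ≤ k ∧ 1 ≤ K ∧ 1 ≤ z ∧ ∀ r : ℕ,
      G ^ r * ρ * ((K : ℝ) ^ r * z) ^ 2 / 2 ≤
        (finrank F (V ^ (k * (K ^ r * z)) : Submodule F A) : ℝ) := by
  obtain ⟨k, Z1, hk, H1⟩ := r1 η hη hη1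
  obtain ⟨k', Z1', hk', H2⟩ := r2 η hη hη1
  set g1 : ℝ := (1 - η) * ((e : ℝ) / q) ^ 2 with hg1
  set g2 : ℝ := (1 - η) * ((e' : ℝ) / q') ^ 2 with hg2
  have he0 : (0 : ℝ) < e := by exact_mod_cast he
  have hq0 : (0 : ℝ) < q := by exact_mod_cast hq
  have hg1p : 0 < g1 := by
    have : 0 < 1 - η := by linarith
    positivity
  obtain ⟨z, n, hz, hn, hT, hfr⟩ := hst (max (Z1 : ℝ) (Z1' / g1))
  have hT1 : (Z1 : ℝ) ≤ ρ * z := (le_max_left _ _).trans hT
  have hT2 : (Z1' : ℝ) / g1 ≤ ρ * z := (le_max_right _ _).trans hT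
  have hz0 : (1 : ℝ) ≤ z := by exact_mod_cast hz
  have hk0 : (1 : ℝ) ≤ k := by exact_mod_cast hk
  have hk0' : (1 : ℝ) ≤ k' := by exact_mod_cast hk'
  have hGp : 0 < G := by linarith
  have key : ∀ r : ℕ, ∃ n : ℕ, 1 ≤ n ∧
      1 + G ^ r * ρ * (n + η / 4 * (((k' * k) ^ r * z : ℕ) : ℝ)) ≤
        (finrank F (E.L n (V ^ ((k' * k) ^ r * z))) : ℝ) ∧
      ρ * z ≤ G ^ r * ρ * (((k' * k) ^ r * z : ℕ) : ℝ) := by
    intro r
    induction r with
    | zero =>
      have hz0' : (k' * k) ^ 0 * z = z := by rw [pow_zero, one_mul]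
      refine ⟨n, hn, ?_, ?_⟩
      · rw [hz0', pow_zero, one_mul]
        exact hfr
      · rw [hz0', pow_zero, one_mul]
    | succ r ih =>
      obtain ⟨n, hn, hfr, hbig⟩ := ih
      set zr : ℕ := (k' * k) ^ r * z with hzr
      have hzr1 : 1 ≤ zr := Nat.mul_pos (pow_pos (Nat.mul_pos hk' hk) r) hz
      have hzr0 : (1 : ℝ) ≤ zr := by exact_mod_cast hzr1
      have hρr : 0 < G ^ r * ρ := by positivity
      obtain ⟨-, n1, hn1, hfr1⟩ := H1 zr n (G ^ r * ρ) hzr1 hn hρr (hT1.trans hbig) hfr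
      have hρ1 : 0 < g1 * (G ^ r * ρ) := by positivity
      have hkz : 1 ≤ k * zr := Nat.mul_pos hk hzr1
      have hbig1 : (Z1' : ℝ) ≤ g1 * (G ^ r * ρ) * ((k * zr : ℕ) : ℝ) := by
        have h1 : (Z1' : ℝ) ≤ g1 * (ρ * z) := by
          rw [div_le_iff₀ hg1p] at hT2
          linarith
        have h2 : g1 * (ρ * z) ≤ g1 * (G ^ r * ρ * zr) :=
          mul_le_mul_of_nonneg_left hbig hg1p.le
        have h3 : g1 * (G ^ r * ρ * zr) ≤ g1 * (G ^ r * ρ) * ((k * zr : ℕ) : ℝ) := by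
          push_cast
          have h4 : 0 ≤ g1 * (G ^ r * ρ) * zr := by positivity
          nlinarith
        linarith
      obtain ⟨-, n2, hn2, hfr2⟩ := H2 (k * zr) n1 (g1 * (G ^ r * ρ)) hkz hn1 hρ1 hbig1 hfr1
      have hz2 : (k' * k) ^ (r + 1) * z = k' * (k * zr) := by
        rw [hzr, pow_succ]
        ring
      refine ⟨n2, hn2, ?_, ?_⟩
      · rw [hz2]
        have h5 : G ^ (r + 1) * ρ = g2 * (g1 * (G ^ r * ρ)) := by
          rw [pow_succ, hG]
          ring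
        rw [h5]
        exact hfr2
      · rw [hz2]
        have h6 : G ^ r * ρ * zr ≤ G ^ (r + 1) * ρ * ((k' * (k * zr) : ℕ) : ℝ) := by
          push_cast
          have h7 : 0 < G ^ r * ρ * zr := by positivity
          have h8 : 1 ≤ (k' : ℝ) * k := by nlinarith
          have h9 : 1 ≤ G * ((k' : ℝ) * k) := by nlinarith
          calc G ^ r * ρ * zr ≤ (G ^ r * ρ * zr) * (G * ((k' : ℝ) * k)) :=
                le_mul_of_one_le_right h7.le h9
            _ = G ^ (r + 1) * ρ * ((k' : ℝ) * (k * zr)) := by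
                rw [pow_succ]
                ring
        exact hbig.trans h6
  refine ⟨k, k' * k, z, hk, Nat.mul_pos hk' hk, hz, ?_⟩
  intro r
  obtain ⟨n, hn, hfr, hbig⟩ := key r
  have hzr1 : 1 ≤ (k' * k) ^ r * z := Nat.mul_pos (pow_pos (Nat.mul_pos hk' hk) r) hz
  have hρr : 0 < G ^ r * ρ := by positivity
  have h := (H1 ((k' * k) ^ r * z) n (G ^ r * ρ) hzr1 hn hρr (hT1.trans hbig) hfr).1
  have hc : (((k' * k) ^ r * z : ℕ) : ℝ) = ((k' * k : ℕ) : ℝ) ^ r * z := by push_cast; ring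
  rw [← hc]
  exact h

/-- The growth contradiction. -/
lemma no_gk2 (V : Submodule F A) (hfd : FiniteDimensional F V) (h1 : (1 : A) ∈ V)
    (G ρ : ℝ) (hG : 1 < G) (hρ : 0 < ρ) (k K z : ℕ) (hk : 1 ≤ k) (hK : 1 ≤ K) (hz : 1 ≤ z)
    (h : ∀ r : ℕ, G ^ r * ρ * ((K : ℝ) ^ r * z) ^ 2 / 2 ≤
        (finrank F (V ^ (k * (K ^ r * z)) : Submodule F A) : ℝ)) :
    ¬ GK2 F A := by
  intro hgk
  have hz0 : (1 : ℝ) ≤ z := by exact_mod_cast hz
  have hk0 : (1 : ℝ) ≤ k := by exact_mod_cast hk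
  rcases Nat.lt_or_ge 1 K with hK2 | hK1
  · -- K ≥ 2
    have hKR : (1 : ℝ) < K := by exact_mod_cast hK2
    set ε : ℝ := Real.log G / (2 * Real.log K) with hε
    have hlG : 0 < Real.log G := Real.log_pos hG
    have hlK : 0 < Real.log K := Real.log_pos hKR
    have hε0 : 0 < ε := by positivity
    have hev := hgk V hfd (by rw [Submodule.one_le]; exact h1) ε hε0
    rw [Filter.eventually_atTop] at hev
    obtain ⟨n0, hn0⟩ := hev
    -- K ^ ε = sqrt G
    have hKε : (K : ℝ) ^ ε = G ^ ((1 : ℝ) / 2) := by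
      rw [Real.rpow_def_of_pos (by linarith), Real.rpow_def_of_pos (by linarith), hε]
      congr 1
      field_simp
    set B : ℝ := ((k : ℝ) * z) ^ ((2 : ℝ) + ε) with hB
    have hBp : 0 < B := by
      have : (0 : ℝ) < (k : ℝ) * z := by nlinarith
      positivity
    have hs1 : 1 < G ^ ((1 : ℝ) / 2) := Real.one_lt_rpow hG (by norm_num)
    have hbound : ∀ r : ℕ, n0 ≤ r → (G ^ ((1 : ℝ) / 2)) ^ r ≤ 2 * B / ρ := by
      intro r hr
      have hn : n0 ≤ k * (K ^ r * z) := by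
        have h2 : r < K ^ r := Nat.lt_pow_self hK2
        have h3 : K ^ r ≤ k * (K ^ r * z) := by
          calc K ^ r = 1 * (K ^ r * 1) := by ring
            _ ≤ k * (K ^ r * z) := Nat.mul_le_mul hk (Nat.mul_le_mul le_rfl hz)
        omega
      have h4 := (h r).trans (hn0 _ hn)
      have h5 : (((k * (K ^ r * z) : ℕ) : ℝ)) ^ ((2 : ℝ) + ε) =
          B * (((K : ℝ) ^ r) ^ 2 * (G ^ ((1 : ℝ) / 2)) ^ r) := by
        have h6 : (((k * (K ^ r * z) : ℕ) : ℝ)) = ((k : ℝ) * z) * (K : ℝ) ^ r := by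
          push_cast
          ring
        rw [h6, Real.mul_rpow (by positivity) (by positivity), ← hB]
        congr 1
        rw [Real.rpow_add (by positivity)]
        congr 1
        · norm_num
        · rw [← hKε, ← Real.rpow_natCast, ← Real.rpow_natCast, ← Real.rpow_mul (by positivity),
            ← Real.rpow_mul (by positivity), mul_comm]
      rw [h5] at h4
      have h7 : G ^ r = (G ^ ((1 : ℝ) / 2)) ^ r * (G ^ ((1 : ℝ) / 2)) ^ r := by
        rw [← mul_pow, ← Real.rpow_add (by linarith)]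
        norm_num
      set t : ℝ := (G ^ ((1 : ℝ) / 2)) ^ r with ht
      have htp : 0 < t := by positivity
      set u : ℝ := ((K : ℝ) ^ r) ^ 2 with hu
      have hup : 0 < u := by positivity
      rw [h7, mul_pow, ← hu] at h4
      have hz2 : (1 : ℝ) ≤ (z : ℝ) ^ 2 := one_le_pow₀ hz0
      rw [le_div_iff₀ hρ]
      have h8 : t * t * ρ * u ≤ 2 * (B * (u * t)) := by
        have h9 : t * t * ρ * (u * (1 : ℝ)) ≤ t * t * ρ * (u * (z : ℝ) ^ 2) := by
          apply mul_le_mul_of_nonneg_left _ (by positivity)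
          exact mul_le_mul_of_nonneg_left hz2 hup.le
        linarith
      have h10 : (t * ρ) * (t * u) ≤ (2 * B) * (t * u) := by linarith
      exact le_of_mul_le_mul_right h10 (by positivity)
    obtain ⟨m, hm⟩ := pow_unbounded_of_one_lt (2 * B / ρ) hs1
    have h11 := hbound (max m n0) (le_max_right _ _)
    have h12 : (G ^ ((1 : ℝ) / 2)) ^ m ≤ (G ^ ((1 : ℝ) / 2)) ^ (max m n0) :=
      pow_le_pow_right₀ hs1.le (le_max_left _ _)
    linarith
  · -- K = 1
    have hKe : K = 1 := le_antisymm hK1 hK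
    subst hKe
    obtain ⟨m, hm⟩ := pow_unbounded_of_one_lt
      (2 * (finrank F (V ^ (k * z) : Submodule F A) : ℝ) / ρ) hG
    have h2 := h m
    have hkz : k * (1 ^ m * z) = k * z := by rw [one_pow, one_mul]
    rw [hkz] at h2
    simp only [Nat.cast_one, one_pow, one_mul] at h2
    rw [div_lt_iff₀ hρ] at hm
    have hz2 : (1 : ℝ) ≤ (z : ℝ) ^ 2 := one_le_pow₀ hz0
    have h3 : G ^ m * ρ * 1 ≤ G ^ m * ρ * (z : ℝ) ^ 2 :=
      mul_le_mul_of_nonneg_left hz2 (by positivity)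
    linarith

theorem iter : IterStmt := by
  intro loc round F K X A _ _ _ _ _ Q E E' a b i j hi hj ha hb ha' hb' hxy
  obtain ⟨x, y, n, hx, hy, hli⟩ := hxy
  set V0 : Submodule F A := Submodule.span F {1, a, b, x, y} with hV0
  have hfd : FiniteDimensional F V0 :=
    FiniteDimensional.span_of_finite F (by
      refine Set.Finite.insert _ (Set.Finite.insert _ (Set.Finite.insert _
        (Set.Finite.insert _ (Set.finite_singleton _)))))
  have h1 : (1 : A) ∈ V0 := Submodule.subset_span (by simp)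
  have haV : a ∈ V0 := Submodule.subset_span (by simp)
  have hbV : b ∈ V0 := Submodule.subset_span (by simp)
  have hxV : x ∈ V0 := Submodule.subset_span (by simp)
  have hyV : y ∈ V0 := Submodule.subset_span (by simp)
  set M : ℕ := i * (i + 1) + (i + 1) * (j + 1) with hM
  have s1 := sea1 E E' a b i j M hi hj V0 hfd h1 haV hbV ha hb hb' (by omega)
  have s2 := sea2 E E' a b i j M hi V0 hfd h1 haV hbV ha ha' hb' (by omega)
  have l1 := loc F K X A Q E E' _ _ _ _ s1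
  have l2 := loc F K X A Q E' E _ _ _ _ s2
  have r1 := round F K X A Q E E' _ _ _ _ s1 l1
  have r2 := round F K X A Q E' E _ _ _ _ s2 l2
  have hM1 : 1 ≤ M := by nlinarith
  have hxM : x ∈ V0 ^ M := pow_le_pow h1 hM1 (by rw [pow_one]; exact hxV)
  have hyM : y ∈ V0 ^ M := pow_le_pow h1 hM1 (by rw [pow_one]; exact hyV)
  obtain ⟨ρ, hρ, hst⟩ := start E E' (V0 ^ M) _ _ _ s1 l1 n x y hxM hyM hx hy hli
  have hi0 : (0 : ℝ) < i := by exact_mod_cast hi
  have hj0 : (0 : ℝ) < j := by exact_mod_cast hj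
  set g : ℝ := (((i : ℝ) + 1) * (j + 1) / (i * j)) ^ 2 with hg
  have hg1 : 1 < g := by
    have h3 : 1 < ((i : ℝ) + 1) * (j + 1) / (i * j) := by
      rw [lt_div_iff₀ (by positivity)]
      nlinarith
    rw [hg]
    nlinarith
  set η : ℝ := (g - 1) / (4 * g) with hη
  have hη0 : 0 < η := by
    have : 0 < g - 1 := by linarith
    positivity
  have hη1 : η < 1 := by
    rw [hη, div_lt_one (by linarith)]
    linarith
  have hηg : η * g = (g - 1) / 4 := by
    rw [hη]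
    field_simp
  have hG1 : 1 < (1 - η) ^ 2 * g := by nlinarith
  have hGe : (1 - η) ^ 2 * g = ((1 - η) * ((((i + 1) * (j + 1) : ℕ) : ℝ) /
      (((i + 1) * i : ℕ) : ℝ)) ^ 2) * ((1 - η) * (((i * (i + 1) : ℕ) : ℝ) /
        ((i * j : ℕ) : ℝ)) ^ 2) := by
    rw [hg]
    push_cast
    field_simp
  obtain ⟨k, K', z, hk, hK, hz, hr⟩ := rounds E E' (V0 ^ M) _ _ _ _ s1.e1 s1.q1 r1 r2 η hη0 hη1
    ρ hρ (fun T => hst η T hη0 hη1) ((1 - η) ^ 2 * g) hGe hG1
  exact no_gk2 (V0 ^ M) s1.fd s1.one _ ρ hG1 hρ k K' z hk hK hz hr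

end Pool.Agent.Q2N.H53
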